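import Pool.Agent.Helper19.PQ.Defs

/-!
# Project PQ, piece PQ-2: the quadratic form of the orthonormalised pencil
-/

open MeasureTheory Set Metric Filter Module Matrix
open scoped NNReal Topology RealInnerProductSpace ENNReal Real

namespace Pool.Agent.Helper19.PQ

open Pool.Agent.Helper19.PS (NP)

private theorem P2_NP_mul {d : ℕ} (A : Matrix (Fin d) (Fin d) ℝ) (a : Fin d → ℝ)
    (R : Matrix (Fin d) (Fin d) ℝ) (i : Fin d) :
    NP (R * A) (R * (-1)) (R *ᵥ a) i = ∑ k, R i k • NP A (-1) a k := by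
  ext s t
  rw [Matrix.sum_apply]
  simp only [Matrix.smul_apply, smul_eq_mul, NP]
  rcases s with s | s <;> rcases t with t | t
  · fin_cases s <;> fin_cases t <;>
      simp [Matrix.mulVec, dotProduct]
  · fin_cases s <;> simp [Matrix.mul_apply]
  · fin_cases t <;> simp [Matrix.mul_apply]
  · simp

theorem qd_eq {d : ℕ} (A : Matrix (Fin d) (Fin d) ℝ) (a : Fin d → ℝ) (R : Matrix (Fin d) (Fin d) ℝ)
    (hR : R * (1 + A * Aᵀ + vecMulVec a a) * Rᵀ = 1) (ξ : Fin 2 ⊕ Fin d → ℝ) :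
    ∑ i, (NP (R * A) (R * (-1)) (R *ᵥ a) i *ᵥ ξ) ⬝ᵥ (NP (R * A) (R * (-1)) (R *ᵥ a) i *ᵥ ξ)
      = qd A a ξ := by
  have h1 : ∀ i, NP (R * A) (R * (-1)) (R *ᵥ a) i *ᵥ ξ = ∑ k, R i k • (NP A (-1) a k *ᵥ ξ) := by
    intro i
    rw [P2_NP_mul, Matrix.sum_mulVec]
    exact Finset.sum_congr rfl fun k _ => Matrix.smul_mulVec _ _ _
  have h2 : Rᵀ * R = (1 + A * Aᵀ + vecMulVec a a)⁻¹ := by
    rw [Matrix.mul_assoc, mul_eq_one_comm, Matrix.mul_assoc] at hR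
    exact (Matrix.inv_eq_right_inv hR).symm
  unfold qd
  rw [← h2, ← Matrix.trace_mul_cycle]
  unfold Matrix.trace
  refine Finset.sum_congr rfl fun i _ => ?_
  rw [h1 i, Matrix.diag_apply, Matrix.mul_apply]
  have h3 : ∀ j, (R * Gr A a ξ) i j * Rᵀ j i = ∑ k, R i k * R i j *
      ((NP A (-1) a k *ᵥ ξ) ⬝ᵥ (NP A (-1) a j *ᵥ ξ)) := by
    intro j
    rw [Matrix.mul_apply, Finset.sum_mul]
    refine Finset.sum_congr rfl fun k _ => ?_
    rw [Matrix.transpose_apply]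
    show R i k * ((NP A (-1) a k *ᵥ ξ) ⬝ᵥ (NP A (-1) a j *ᵥ ξ)) * R i j = _
    ring
  rw [Finset.sum_congr rfl fun j _ => h3 j, Finset.sum_comm, sum_dotProduct]
  refine Finset.sum_congr rfl fun k _ => ?_
  rw [dotProduct_sum]
  refine Finset.sum_congr rfl fun l _ => ?_
  rw [smul_dotProduct, dotProduct_smul, smul_eq_mul, smul_eq_mul]
  ring

end Pool.Agent.Helper19.PQ
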